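import Pool.Agent.Helper12_UNF.Stmts2

set_option autoImplicit false

/-!
# Squad UNF, module THK: every Artin group maps to the small type Artin group of its unfolded graph
-/

namespace Unf.H40

open Art

section

variable {G : Type} [Group G]

theorem comm_prod {x : G} {l : List G} (h : ∀ y ∈ l, x * y = y * x) : x * l.prod = l.prod * x := by
  induction l with
  | nil => simp
  | cons y l ih =>
    rw [List.prod_cons, ← mul_assoc, h y List.mem_cons_self, mul_assoc,
      ih (fun z hz => h z (List.mem_cons_of_mem _ hz)), mul_assoc]

theorem comm_prods {l r : List G} (h : ∀ x ∈ l, ∀ y ∈ r, x * y = y * x) :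
    l.prod * r.prod = r.prod * l.prod := by
  symm
  apply comm_prod
  intro x hx
  symm
  apply comm_prod
  intro y hy
  exact h x hx y hy

/-- Separate the elements of a commuting product. -/
theorem split_prod (h : ℕ → G) (hc : ∀ i j, h i * h j = h j * h i) (l : List ℕ) :
    (l.map h).prod = ((l.filter (fun i => i % 2 = 0)).map h).prod *
      ((l.filter (fun i => i % 2 = 1)).map h).prod := by
  induction l with
  | nil => simp
  | cons a l ih =>
    rw [List.map_cons, List.prod_cons, ih]
    rcases Nat.mod_two_eq_zero_or_one a with ha | ha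
    · rw [List.filter_cons_of_pos (by simpa using ha),
        List.filter_cons_of_neg (by simp [ha]), List.map_cons, List.prod_cons, mul_assoc]
    · rw [List.filter_cons_of_neg (by simp [ha]),
        List.filter_cons_of_pos (by simpa using ha), List.map_cons, List.prod_cons,
        ← mul_assoc, ← mul_assoc]
      congr 1
      apply comm_prod
      intro y hy
      rw [List.mem_map] at hy
      obtain ⟨j, _, rfl⟩ := hy
      exact hc a j

theorem alt_comm {x a b : G} (ha : x * a = a * x) (hb : x * b = b * x) (m : ℕ) :
    x * alt m a b = alt m a b * x := by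
  have key : ∀ m, x * alt m a b = alt m a b * x ∧ x * alt m b a = alt m b a * x := by
    intro m
    induction m with
    | zero => simp [alt_zero]
    | succ m ih =>
      rw [alt_succ, alt_succ]
      constructor
      · rw [← mul_assoc, ha, mul_assoc, ih.2, mul_assoc]
      · rw [← mul_assoc, hb, mul_assoc, ih.1, mul_assoc]
  exact (key m).1

theorem alt_mul {x y a b : G} (h1 : x * a = a * x) (h2 : x * b = b * x) (h3 : y * a = a * y)
    (h4 : y * b = b * y) (m : ℕ) : alt m (x * a) (y * b) = alt m x y * alt m a b := by
  have key : ∀ m, alt m (x * a) (y * b) = alt m x y * alt m a b ∧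
      alt m (y * b) (x * a) = alt m y x * alt m b a := by
    intro m
    induction m with
    | zero => simp [alt_zero]
    | succ m ih =>
      constructor
      · rw [alt_succ m (x * a), alt_succ m x, alt_succ m a, ih.2, mul_assoc x a, ← mul_assoc a,
          alt_comm h3.symm h1.symm m]
        simp only [mul_assoc]
      · rw [alt_succ m (y * b), alt_succ m y, alt_succ m b, ih.1, mul_assoc y b, ← mul_assoc b,
          alt_comm h2.symm h4.symm m]
        simp only [mul_assoc]
  exact (key m).1

theorem good_mul {x y a b : G} (h1 : x * a = a * x) (h2 : x * b = b * x) (h3 : y * a = a * y)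
    (h4 : y * b = b * y) (m : ℕ) (hx : alt m x y = alt m y x) (ha : alt m a b = alt m b a) :
    alt m (x * a) (y * b) = alt m (y * b) (x * a) := by
  rw [alt_mul h1 h2 h3 h4, alt_mul h4 h3 h2 h1, hx, ha]

/-- One block. -/
theorem block (pth : PthStmt) (p : ℕ) (f g : ℕ → G) (hf : ∀ i j, f i * f j = f j * f i)
    (hg : ∀ i j, g i * g j = g j * g i)
    (hfg : ∀ i j, i < p → j < p → i + 1 ≠ j → j + 1 ≠ i → f i * g j = g j * f i)
    (hb : ∀ i j, i < p → j < p → (i + 1 = j ∨ j + 1 = i) → f i * g j * f i = g j * f i * g j) :
    alt (p + 1) ((List.range p).map f).prod ((List.range p).map g).prod =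
      alt (p + 1) ((List.range p).map g).prod ((List.range p).map f).prod := by
  have key : ∀ (f g : ℕ → G), (∀ i j, f i * f j = f j * f i) → (∀ i j, g i * g j = g j * g i) →
      (∀ i j, i < p → j < p → i + 1 ≠ j → j + 1 ≠ i → f i * g j = g j * f i) →
      (∀ i j, i < p → j < p → (i + 1 = j ∨ j + 1 = i) → f i * g j * f i = g j * f i * g j) →
      alt (p + 1) (((List.range p).filter (fun i => i % 2 = 0)).map f).prod
        (((List.range p).filter (fun i => i % 2 = 1)).map g).prod =
      alt (p + 1) (((List.range p).filter (fun i => i % 2 = 1)).map g).prod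
        (((List.range p).filter (fun i => i % 2 = 0)).map f).prod := by
    intro f g hf hg hfg hb
    have h := pth p (fun i => if i % 2 = 0 then f i else g i) (by
      intro i hi
      rcases Nat.mod_two_eq_zero_or_one i with h0 | h0
      · have h1 : ¬ (i + 1) % 2 = 0 := by omega
        simp only [h0, h1, if_true, if_false]
        exact hb i (i + 1) (by omega) hi (Or.inl rfl)
      · have h1 : (i + 1) % 2 = 0 := by omega
        have h2 : ¬ i % 2 = 0 := by omega
        simp only [h2, h1, if_true, if_false]
        exact (hb (i + 1) i hi (by omega) (Or.inr rfl)).symm) (by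
      intro i j hij hj
      by_cases h1 : i % 2 = 0 <;> by_cases h2 : j % 2 = 0 <;> simp only [h1, h2, if_true, if_false]
      · exact hf i j
      · exact hfg i j (by omega) hj (by omega) (by omega)
      · exact (hfg j i hj (by omega) (by omega) (by omega)).symm
      · exact hg i j)
    have e1 : ((List.range p).filter (fun i => i % 2 = 0)).map (fun i => if i % 2 = 0 then f i else g i)
        = ((List.range p).filter (fun i => i % 2 = 0)).map f := by
      apply List.map_congr_left
      intro i hi
      rw [List.mem_filter] at hi
      rw [if_pos (by simpa using hi.2)]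
    have e2 : ((List.range p).filter (fun i => i % 2 = 1)).map (fun i => if i % 2 = 0 then f i else g i)
        = ((List.range p).filter (fun i => i % 2 = 1)).map g := by
      apply List.map_congr_left
      intro i hi
      rw [List.mem_filter] at hi
      have : i % 2 = 1 := by simpa using hi.2
      rw [if_neg (by omega)]
    rw [e1, e2] at h
    exact h
  have k1 := key f g hf hg hfg hb
  have k2 := key g f hg hf (fun i j hi hj h1 h2 => (hfg j i hj hi h2 h1).symm)
    (fun i j hi hj h => (hb j i hj hi h.symm).symm)
  have cc : ∀ (f g : ℕ → G) (q r : ℕ),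
      (∀ i j, i < p → j < p → i % 2 = q → j % 2 = r → f i * g j = g j * f i) →
      (((List.range p).filter (fun i => i % 2 = q)).map f).prod *
        (((List.range p).filter (fun i => i % 2 = r)).map g).prod =
      (((List.range p).filter (fun i => i % 2 = r)).map g).prod *
        (((List.range p).filter (fun i => i % 2 = q)).map f).prod := by
    intro f g q r h
    apply comm_prods
    intro x hx y hy
    rw [List.mem_map] at hx hy
    obtain ⟨i, hi, rfl⟩ := hx
    obtain ⟨j, hj, rfl⟩ := hy
    rw [List.mem_filter, List.mem_range] at hi hj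
    exact h i j hi.1 hj.1 (by simpa using hi.2) (by simpa using hj.2)
  rw [split_prod f hf, split_prod g hg, cc g g 0 1 (fun i j _ _ _ _ => hg i j)]
  apply good_mul _ _ _ _ (p + 1) k1 k2.symm
  · exact cc f f 0 1 (fun i j _ _ _ _ => hf i j)
  · exact cc f g 0 0 (fun i j hi hj h1 h2 => hfg i j hi hj (by omega) (by omega))
  · exact cc g f 1 1 (fun i j hi hj h1 h2 => (hfg j i hj hi (by omega) (by omega)).symm)
  · exact cc g g 1 0 (fun i j _ _ _ _ => hg i j)

/-- All blocks. -/
theorem blocks (pth : PthStmt) (p : ℕ) (hp : 0 < p) (f g : ℕ → G)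
    (hf : ∀ i j, f i * f j = f j * f i) (hg : ∀ i j, g i * g j = g j * g i)
    (hfg : ∀ i j, ¬ ((i + 1 = j ∨ j + 1 = i) ∧ i / p = j / p) → f i * g j = g j * f i) :
    ∀ q : ℕ, (∀ i j, i < q * p → j < q * p → (i + 1 = j ∨ j + 1 = i) → i / p = j / p →
      f i * g j * f i = g j * f i * g j) →
    alt (p + 1) ((List.range (q * p)).map f).prod ((List.range (q * p)).map g).prod =
      alt (p + 1) ((List.range (q * p)).map g).prod ((List.range (q * p)).map f).prod := by
  intro q
  induction q with
  | zero => intro _; simp
  | succ q ih =>
    intro hb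
    have hq : (q + 1) * p = q * p + p := by ring
    rw [hq] at hb ⊢
    have hs : ∀ h : ℕ → G, ((List.range (q * p + p)).map h).prod = ((List.range (q * p)).map h).prod *
        ((List.range p).map (fun r => h (q * p + r))).prod := by
      intro h
      rw [List.range_add, List.map_append, List.prod_append, List.map_map]
      rfl
    rw [hs f, hs g]
    have cc : ∀ h k : ℕ → G, (∀ i j, i < q * p → q * p ≤ j → j < q * p + p → h i * k j = k j * h i) →
        ((List.range (q * p)).map h).prod * ((List.range p).map (fun r => k (q * p + r))).prod =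
        ((List.range p).map (fun r => k (q * p + r))).prod * ((List.range (q * p)).map h).prod := by
      intro h k hh
      apply comm_prods
      intro x hx y hy
      rw [List.mem_map] at hx hy
      obtain ⟨i, hi, rfl⟩ := hx
      obtain ⟨j, hj, rfl⟩ := hy
      rw [List.mem_range] at hi hj
      exact hh i (q * p + j) hi (by omega) (by omega)
    have hdiv : ∀ i j, i < q * p → q * p ≤ j → i / p ≠ j / p := by
      intro i j hi hj he
      have h1 : i / p < q := (Nat.div_lt_iff_lt_mul hp).2 hi
      have h2 : q ≤ j / p := (Nat.le_div_iff_mul_le hp).2 hj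
      omega
    apply good_mul _ _ _ _ (p + 1)
    · exact ih (fun i j hi hj => hb i j (by omega) (by omega))
    · apply block pth p
      · intro i j
        exact hf _ _
      · intro i j
        exact hg _ _
      · intro i j hi hj h1 h2
        apply hfg
        rintro ⟨h3 | h3, _⟩ <;> omega
      · intro i j hi hj h
        apply hb _ _ (by omega) (by omega) (by omega)
        rw [Nat.mul_comm q p, Nat.mul_add_div hp, Nat.mul_add_div hp, Nat.div_eq_of_lt hi,
          Nat.div_eq_of_lt hj]
    · exact cc f f (fun i j _ _ _ => hf i j)
    · exact cc f g (fun i j hi hj _ => hfg i j (fun h => hdiv i j hi hj h.2))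
    · exact cc g f (fun i j hi hj _ => (hfg j i (fun h => hdiv i j hi hj h.2.symm)).symm)
    · exact cc g g (fun i j _ _ _ => hg i j)

end

/-- THK. -/
theorem thk (pth : PthStmt) : ThkStmt := by
  intro S _ M K hK G _ T hbr hco
  let F : S → ℕ → G := fun s u => if h : u < K then T (s, ⟨u, h⟩) else 1
  have hF : ∀ s u (h : u < K), F s u = T (s, ⟨u, h⟩) := fun s u h => dif_pos h
  have hF' : ∀ s u, ¬ u < K → F s u = 1 := fun s u h => dif_neg h
  have hprod : ∀ s, (List.ofFn (fun u : Fin K => T (s, u))).prod = ((List.range K).map (F s)).prod := by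
    intro s
    congr 1
    apply List.ext_getElem
    · simp
    · intro i h1 h2
      rw [List.getElem_ofFn, List.getElem_map, List.getElem_range]
      rw [List.length_ofFn] at h1
      rw [hF s i h1]
  have hcomm : ∀ s t u v, (s = t ∨ ¬ (M.M s t ≠ 0 ∧ (u + 1 = v ∨ v + 1 = u) ∧
      u / (M.M s t - 1) = v / (M.M s t - 1))) → F s u * F t v = F t v * F s u := by
    intro s t u v h
    by_cases hu : u < K
    · by_cases hv : v < K
      · rw [hF s u hu, hF t v hv]
        by_cases he : ((s, ⟨u, hu⟩) : S × Fin K) = (t, ⟨v, hv⟩)
        · rw [he]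
        · apply hco _ _ he
          rintro ⟨h1, h2, h3, h4⟩
          rcases h with h | h
          · exact h1 h
          · exact h ⟨h2, h3, h4⟩
      · rw [hF' t v hv, mul_one, one_mul]
    · rw [hF' s u hu, mul_one, one_mul]
  obtain ⟨θ, hθ⟩ := Art.lift M (fun s => (List.ofFn (fun u : Fin K => T (s, u))).prod) (by
    intro s t hst
    by_cases hne : s = t
    · rw [hne]
    · have h1 : M.M s t ≠ 1 := M.off_diagonal s t hne
      set p := M.M s t - 1 with hp
      have hm : M.M s t = p + 1 := by omega
      have hp0 : 0 < p := by omega
      obtain ⟨q, hq⟩ := hK s t hne hst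
      have hq' : K = q * p := by rw [hq, hp, Nat.mul_comm]
      simp only [hprod]
      rw [hm, hq']
      apply blocks pth p hp0 (F s) (F t)
      · intro i j
        exact hcomm s s i j (Or.inl rfl)
      · intro i j
        exact hcomm t t i j (Or.inl rfl)
      · intro i j h
        apply hcomm s t i j
        right
        rintro ⟨_, h2, h3⟩
        exact h ⟨h2, h3⟩
      · intro i j hi hj h2 h3
        rw [hF s i (by omega), hF t j (by omega)]
        exact hbr _ _ ⟨hne, hst, h2, h3⟩)
  exact ⟨θ, hθ⟩

end Unf.H40
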