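import Pool.Agent.Helper63_UNF.Hln

set_option autoImplicit false

/-!
# Squad UNF, module HTA: stabilizers and double cosets of parabolic subgroups of the braid group
-/

namespace Unf.H40

open Art Unf.H63

/-! ## Segments -/

/-- The letters `lo, ..., hi`. -/
def sg (m lo hi : ℕ) : List (Fin m) := (List.finRange m).filter (fun j => lo ≤ j.1 ∧ j.1 ≤ hi)

theorem mem_sg {m lo hi : ℕ} (j : Fin m) : j ∈ sg m lo hi ↔ lo ≤ j.1 ∧ j.1 ≤ hi := by
  simp [sg]

theorem pw_sg (m lo hi : ℕ) : (sg m lo hi).Pairwise (· < ·) :=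
  (List.pairwise_lt_finRange m).filter _

theorem nodup_sg (m lo hi : ℕ) : (sg m lo hi).Nodup := (pw_sg m lo hi).imp (fun h => ne_of_lt h)

theorem rw_of_pw {m : ℕ} {l : List (Fin m)} (h : l.Nodup) : Rw l := List.Pairwise.isChain h

/-- Splitting a segment. -/
theorem sg_append (m lo mid hi : ℕ) (h1 : lo ≤ mid + 1) (h2 : mid ≤ hi) :
    sg m lo mid ++ sg m (mid + 1) hi = sg m lo hi := by
  apply List.Pairwise.eq_of_mem_iff (r := (· < ·)) _ (pw_sg m lo hi)
  · intro a
    rw [List.mem_append, mem_sg, mem_sg, mem_sg]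
    omega
  · rw [List.pairwise_append]
    refine ⟨pw_sg _ _ _, pw_sg _ _ _, ?_⟩
    intro a ha b hb
    rw [mem_sg] at ha hb
    show a.1 < b.1
    omega

theorem sg_single {m : ℕ} (j : Fin m) : sg m j.1 j.1 = [j] := by
  apply List.Pairwise.eq_of_mem_iff (r := (· < ·)) (pw_sg m _ _) (List.pairwise_singleton _ _)
  intro a
  rw [mem_sg, List.mem_singleton]
  constructor
  · intro h
    exact Fin.ext (by omega)
  · rintro rfl
    exact ⟨le_rfl, le_rfl⟩

theorem len_sg (m lo : ℕ) : ∀ hi, lo ≤ hi + 1 → hi + 1 ≤ m → (sg m lo hi).length = hi + 1 - lo := by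
  intro hi
  induction hi with
  | zero =>
    intro h1 h2
    by_cases h : lo = 0
    · subst h
      have := sg_single (⟨0, by omega⟩ : Fin m)
      simp only at this
      rw [this]
      rfl
    · have : sg m lo 0 = [] := by
        rw [List.eq_nil_iff_forall_not_mem]
        intro a ha
        rw [mem_sg] at ha
        omega
      rw [this]
      simp only [List.length_nil]
      omega
  | succ hi ih =>
    intro h1 h2
    by_cases h : lo = hi + 1 + 1
    · have : sg m lo (hi + 1) = [] := by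
        rw [List.eq_nil_iff_forall_not_mem]
        intro a ha
        rw [mem_sg] at ha
        omega
      rw [this]
      simp only [List.length_nil]
      omega
    · rw [← sg_append m lo hi (hi + 1) (by omega) (by omega), List.length_append,
        ih (by omega) (by omega)]
      have := sg_single (⟨hi + 1, by omega⟩ : Fin m)
      simp only at this
      rw [this]
      simp only [List.length_singleton]
      omega

theorem take_eq (m j : ℕ) : (List.finRange m).take (j + 1) = sg m 0 j := by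
  apply List.Pairwise.eq_of_mem_iff (r := (· < ·))
    ((List.pairwise_lt_finRange m).sublist (List.take_sublist _ _)) (pw_sg m _ _)
  intro a
  rw [mem_sg, List.mem_take_iff_getElem]
  constructor
  · rintro ⟨i, hi, h⟩
    rw [List.getElem_finRange] at h
    rw [← h]
    simp only [Fin.val_cast]
    omega
  · intro h
    refine ⟨a.1, ?_, ?_⟩
    · rw [List.length_finRange]
      have := a.2
      omega
    · rw [List.getElem_finRange]
      rfl

theorem pre_zero (m : ℕ) : pre m 0 = 1 := by simp [pre, wp]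

theorem pre_succ_eq (m j : ℕ) : pre m (j + 1) = wp (sg m 0 j) := by
  unfold pre
  rw [take_eq]

theorem pre_succ {m : ℕ} (j : Fin m) : pre m (j.1 + 1) = pre m j.1 * ox j := by
  rcases hj : j.1 with _ | i
  · rw [pre_zero, one_mul, pre_succ_eq]
    have := sg_single j
    rw [hj] at this
    rw [this, wp_one]
  · rw [pre_succ_eq, pre_succ_eq, ← sg_append m 0 i (i + 1) (by omega) (by omega), wp_append]
    have := sg_single j
    rw [hj] at this
    rw [this, wp_one]

theorem wp_sg (m lo hi : ℕ) (h : lo ≤ hi + 1) : wp (sg m lo hi) = (pre m lo)⁻¹ * pre m (hi + 1) := by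
  rcases lo with _ | lo
  · rw [pre_zero, inv_one, one_mul, pre_succ_eq]
  · rw [pre_succ_eq, pre_succ_eq, ← sg_append m 0 lo hi (by omega) (by omega), wp_append]
    group

/-! ## The action -/

variable {n : ℕ} {Ψ : Gp (CoxeterMatrix.A n) →* MulAut (O (n + 1))}

theorem act_pre (h : IsArt n Ψ) (k : Fin n) : ∀ j, j ≤ n + 1 → j ≠ k.1 + 1 →
    Ψ (gen _ k) (pre (n + 1) j) = pre (n + 1) j := by
  obtain ⟨h1, h2, h3⟩ := h k
  intro j
  induction j using Nat.strong_induction_on with
  | _ j ih =>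
    intro hj hne
    rcases j with _ | j
    · rw [pre_zero, map_one]
    · by_cases hjk : j = k.1 + 1
      · subst hjk
        have e1 := pre_succ (k.castSucc)
        have e2 := pre_succ (k.succ)
        simp only [Fin.val_castSucc, Fin.val_succ] at e1 e2
        rw [e2, e1, map_mul, map_mul, ih k.1 (by omega) (by omega) (by omega), h1, h2]
        rw [mul_assoc (pre (n + 1) k.1), mul_assoc (ox k.castSucc * ox k.succ), ox_sq, mul_one,
          ← mul_assoc]
      · have e := pre_succ (⟨j, by omega⟩ : Fin (n + 1))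
        simp only at e
        rw [e, map_mul, ih j (by omega) (by omega) (by omega), h3]
        · intro hh
          have := congrArg Fin.val hh
          simp only [Fin.val_castSucc] at this
          omega
        · intro hh
          have := congrArg Fin.val hh
          simp only [Fin.val_succ] at this
          omega

theorem stab {D : Set (Fin n)} {g : O (n + 1)} (h : ∀ k ∈ D, Ψ (gen _ k) g = g) :
    ∀ b ∈ P (CoxeterMatrix.A n) D, Ψ b g = g := by
  intro b hb
  refine Subgroup.closure_induction (p := fun b _ => Ψ b g = g) ?_ ?_ ?_ ?_ hb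
  · rintro _ ⟨k, hk, rfl⟩
    exact h k hk
  · rw [map_one]
    rfl
  · intro x y _ _ hx hy
    rw [map_mul, MulAut.mul_apply, hy, hx]
  · intro x _ hx
    rw [map_inv, MulAut.inv_apply, MulEquiv.symm_apply_eq, hx]

theorem stab_pre (h : IsArt n Ψ) {D : Set (Fin n)} {j : ℕ} (hj : j ≤ n + 1)
    (hD : ∀ k ∈ D, j ≠ k.1 + 1) : ∀ b ∈ P (CoxeterMatrix.A n) D,
    Ψ b (pre (n + 1) j) = pre (n + 1) j :=
  stab (fun k hk => act_pre h k j hj (hD k hk))

theorem stab_ox (h : IsArt n Ψ) {D : Set (Fin n)} {j : Fin (n + 1)}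
    (hD : ∀ k ∈ D, j.1 ≠ k.1 ∧ j.1 ≠ k.1 + 1) : ∀ b ∈ P (CoxeterMatrix.A n) D,
    Ψ b (ox j) = ox j := by
  apply stab
  intro k hk
  apply (h k).2.2 j
  · intro hh
    have := congrArg Fin.val hh
    simp only [Fin.val_castSucc] at this
    exact (hD k hk).1 this
  · intro hh
    have := congrArg Fin.val hh
    simp only [Fin.val_succ] at this
    exact (hD k hk).2 this

theorem map_sg_prod (a : Gp (CoxeterMatrix.A n)) (l : List (Fin (n + 1))) :
    (l.map (fun j => Ψ a (ox j))).prod = Ψ a (wp l) := by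
  unfold wp
  rw [map_list_prod, List.map_map]
  rfl

/-- An automorphism which fixes all the generators is trivial. -/
theorem eq_one_of_fix (hmor : MorStmt) (h : IsArt n Ψ) (a : Gp (CoxeterMatrix.A n))
    (ha : ∀ j, Ψ a (ox j) = ox j) : a = 1 := by
  apply hmor n Ψ h
  have h1 : (MulEquiv.toMonoidHom (Ψ a)) = MonoidHom.id (O (n + 1)) := by
    apply (Om (n + 1)).toCoxeterSystem.ext_simple
    intro i
    exact ha i
  ext x
  exact DFunLike.congr_fun h1 x

/-- Reduce a word without new letters. -/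
theorem red' {k : ℕ} (l : List (Fin k)) : ∃ l' : List (Fin k), Rw l' ∧ wp l' = wp l ∧
    ∀ a ∈ l', a ∈ l := by
  induction l with
  | nil => exact ⟨[], List.IsChain.nil, rfl, fun a ha => ha⟩
  | cons a l ih =>
    obtain ⟨l', h1, h2, h3⟩ := ih
    rcases l' with _ | ⟨b, t⟩
    · refine ⟨[a], List.IsChain.singleton a, ?_, by simp⟩
      rw [wp_cons, wp_cons, h2]
    · by_cases hab : a = b
      · subst hab
        refine ⟨t, h1.tail, ?_, ?_⟩
        · rw [wp_cons, ← h2, wp_cons, ← mul_assoc, ox_sq, one_mul]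
        · intro c hc
          exact List.mem_cons_of_mem _ (h3 c (List.mem_cons_of_mem _ hc))
      · refine ⟨a :: b :: t, List.IsChain.cons_cons hab h1, ?_, ?_⟩
        · rw [wp_cons, h2, wp_cons]
        · intro c hc
          rcases List.mem_cons.1 hc with rfl | hc
          · exact List.mem_cons_self
          · exact List.mem_cons_of_mem _ (h3 c hc)

/-- Words of the elements of a parabolic subgroup. -/
theorem word_of_mem {k : ℕ} (D : Fin k → Prop) (g : O k)
    (hg : g ∈ Subgroup.closure {y | ∃ j : Fin k, D j ∧ y = ox j}) :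
    ∃ l : List (Fin k), Rw l ∧ wp l = g ∧ ∀ a ∈ l, D a := by
  have key : ∃ l : List (Fin k), wp l = g ∧ ∀ a ∈ l, D a := by
    refine Subgroup.closure_induction (p := fun g _ => ∃ l : List (Fin k), wp l = g ∧ ∀ a ∈ l, D a)
      ?_ ?_ ?_ ?_ hg
    · rintro _ ⟨j, hj, rfl⟩
      exact ⟨[j], wp_one j, by simpa using hj⟩
    · exact ⟨[], rfl, by simp⟩
    · rintro x y _ _ ⟨l, hl, hl'⟩ ⟨r, hr, hr'⟩
      refine ⟨l ++ r, by rw [wp_append, hl, hr], ?_⟩
      intro a ha
      rcases List.mem_append.1 ha with ha | ha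
      · exact hl' a ha
      · exact hr' a ha
    · rintro x _ ⟨l, hl, hl'⟩
      refine ⟨l.reverse, by rw [wp_reverse, hl], ?_⟩
      intro a ha
      exact hl' a (List.mem_reverse.1 ha)
  obtain ⟨l, hl, hl'⟩ := key
  obtain ⟨l', h1, h2, h3⟩ := red' l
  exact ⟨l', h1, by rw [h2, hl], fun a ha => hl' a (h3 a ha)⟩

/-- Closing a segment. -/
theorem close (hrdc : RdcStmt) (hirr : IrrStmt) (h : IsArt n Ψ) (a : Gp (CoxeterMatrix.A n))
    (lo hi : ℕ) (hlo : lo ≤ hi) (hhi : hi ≤ n)
    (ha : Ψ a ((pre (n + 1) lo)⁻¹ * pre (n + 1) (hi + 1)) =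
      (pre (n + 1) lo)⁻¹ * pre (n + 1) (hi + 1)) :
    ∃ b ∈ P (CoxeterMatrix.A n) {k | lo ≤ k.1 ∧ k.1 < hi},
      ∀ j : Fin (n + 1), lo ≤ j.1 → j.1 ≤ hi → Ψ (a * b) (ox j) = ox j := by
  obtain ⟨b, hb, hI⟩ := hrdc n Ψ h a lo hi hlo hhi
  refine ⟨b, hb, ?_⟩
  have hbp : Ψ b ((pre (n + 1) lo)⁻¹ * pre (n + 1) (hi + 1)) =
      (pre (n + 1) lo)⁻¹ * pre (n + 1) (hi + 1) := by
    rw [map_mul, map_inv, stab_pre h (by omega) (by rintro k ⟨h1, h2⟩; omega) b hb,
      stab_pre h (by omega) (by rintro k ⟨h1, h2⟩; omega) b hb]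
  have hprod : ((sg (n + 1) lo hi).map (fun j => Ψ (a * b) (ox j))).prod =
      wp (sg (n + 1) lo hi) := by
    rw [map_sg_prod, wp_sg (n + 1) lo hi (by omega), map_mul Ψ, MulAut.mul_apply, hbp, ha]
  obtain ⟨l', hl'⟩ := hirr (n + 1) ((sg (n + 1) lo hi).map (fun j => Ψ (a * b) (ox j)))
    (sg (n + 1) lo hi) [] hI (by rw [List.append_nil]; exact rw_of_pw (nodup_sg _ _ _))
    (by rw [List.append_nil, hprod]) (nodup_sg _ _ _) (by simp)
    (Or.inr ⟨by rw [List.length_map], rfl⟩)
  have hnil : l' = [] := by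
    have := congrArg List.length hl'
    rw [List.length_append, List.length_map, List.length_map] at this
    exact List.length_eq_zero_iff.1 (by omega)
  rw [hnil, List.append_nil] at hl'
  intro j h1 h2
  exact (List.map_inj_left.1 hl') j ((mem_sg j).2 ⟨h1, h2⟩)

/-- The product of the reversed list of involutions. -/
theorem prod_rev {k : ℕ} : ∀ l : List (O k), (∀ A ∈ l, A * A = 1) → l.reverse.prod = l.prod⁻¹ := by
  intro l
  induction l with
  | nil => intro _; simp
  | cons A l ih =>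
    intro h
    rw [List.reverse_cons, List.prod_append, List.prod_singleton, List.prod_cons, mul_inv_rev,
      ih (fun B hB => h B (List.mem_cons_of_mem _ hB)),
      inv_eq_of_mul_eq_one_left (h A List.mem_cons_self)]

theorem irr_rev {k : ℕ} {l : List (O k)} (h : Irr l) : Irr l.reverse := by
  refine ⟨fun A hA => h.1 A (List.mem_reverse.1 hA), ?_⟩
  rw [List.isChain_reverse]
  exact h.2.imp (fun A B hAB => ⟨hAB.1.symm, hAB.2.2, hAB.2.1⟩)

theorem part1 (hmor : MorStmt) (hrdc : RdcStmt) (hirr : IrrStmt) (h : IsArt n Ψ)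
    (I : Set (Fin n)) (a : Gp (CoxeterMatrix.A n))
    (ha : ∀ k ∈ I, Ψ a (pre (n + 1) (k.1 + 1)) = pre (n + 1) (k.1 + 1)) :
    a ∈ P (CoxeterMatrix.A n) Iᶜ := by
  classical
  let B : ℕ → Prop := fun m => m = 0 ∨ m = n + 1 ∨ ∃ k ∈ I, k.1 + 1 = m
  have hall : ∀ (c : Gp (CoxeterMatrix.A n)), Ψ c (pre (n + 1) (n + 1)) = pre (n + 1) (n + 1) := by
    intro c
    apply stab_pre h le_rfl (D := Set.univ)
    · intro k _
      have := k.2
      omega
    · unfold P
      rw [Set.image_univ, closure_gen]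
      trivial
  have hBfix : ∀ m, B m → Ψ a (pre (n + 1) m) = pre (n + 1) m := by
    rintro m (rfl | rfl | ⟨k, hk, rfl⟩)
    · rw [pre_zero, map_one]
    · exact hall a
    · exact ha k hk
  have key : ∀ m, m ≤ n + 1 → B m → ∃ b ∈ P (CoxeterMatrix.A n) Iᶜ,
      ∀ j : Fin (n + 1), j.1 < m → Ψ (a * b) (ox j) = ox j := by
    intro m
    induction m using Nat.strong_induction_on with
    | _ m ih =>
      intro hm hBm
      by_cases hm0 : m = 0
      · subst hm0
        exact ⟨1, one_mem _, fun j hj => absurd hj (Nat.not_lt_zero _)⟩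
      · set lo := Nat.findGreatest B (m - 1) with hlo
        have hBlo : B lo := Nat.findGreatest_spec (Nat.zero_le _) (Or.inl rfl)
        have hlom : lo ≤ m - 1 := Nat.findGreatest_le _
        have hno : ∀ k ∈ I, k.1 + 1 ≤ lo ∨ m ≤ k.1 + 1 := by
          intro k hk
          by_contra hcon
          push Not at hcon
          exact Nat.findGreatest_is_greatest (P := B) (n := m - 1) (k := k.1 + 1) hcon.1 (by omega)
            (Or.inr (Or.inr ⟨k, hk, rfl⟩))
        obtain ⟨b, hb, hb'⟩ := ih lo (by omega) (by omega) hBlo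
        have hbp : ∀ m, m ≤ n + 1 → B m → Ψ b (pre (n + 1) m) = pre (n + 1) m := by
          rintro m hm (rfl | rfl | ⟨k, hk, rfl⟩)
          · rw [pre_zero, map_one]
          · exact hall b
          · apply stab_pre h hm _ b hb
            intro k' hk' he
            apply hk'
            have : k = k' := Fin.ext (by omega)
            rw [← this]
            exact hk
        have hm1 : m - 1 + 1 = m := by omega
        obtain ⟨c, hc, hc'⟩ := close hrdc hirr h (a * b) lo (m - 1) hlom (by omega) (by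
          rw [hm1, map_mul Ψ, MulAut.mul_apply, map_mul (Ψ b), map_inv (Ψ b), hbp lo (by omega) hBlo,
            hbp m hm hBm, map_mul, map_inv, hBfix lo hBlo, hBfix m hBm])
        refine ⟨b * c, mul_mem hb ?_, ?_⟩
        · refine Subgroup.closure_mono ?_ hc
          rintro _ ⟨k, ⟨hk1, hk2⟩, rfl⟩
          refine ⟨k, ?_, rfl⟩
          intro hkI
          rcases hno k hkI with h3 | h3 <;> omega
        · intro j hj
          by_cases hjl : j.1 < lo
          · rw [← mul_assoc, map_mul, MulAut.mul_apply,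
              stab_ox h (by rintro k ⟨h1, h2⟩; omega) c hc, hb' j hjl]
          · rw [← mul_assoc]
            exact hc' j (by omega) (by omega)
  obtain ⟨b, hb, hb'⟩ := key (n + 1) le_rfl (Or.inr (Or.inl rfl))
  have := eq_one_of_fix hmor h (a * b) (fun j => hb' j j.2)
  rw [eq_inv_of_mul_eq_one_left this]
  exact inv_mem hb

theorem part2 (hmor : MorStmt) (hrdc : RdcStmt) (hirr : IrrStmt) (h : IsArt n Ψ)
    (s t : Fin n) (hst : s < t) (a : Gp (CoxeterMatrix.A n))
    (ha : (pre (n + 1) (s.1 + 1))⁻¹ * Ψ a (pre (n + 1) (t.1 + 1)) ∈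
        Subgroup.closure {y | ∃ j : Fin (n + 1), s.1 < j.1 ∧ y = ox j}) :
    ∃ b ∈ P (CoxeterMatrix.A n) {k | s < k}, ∃ c ∈ P (CoxeterMatrix.A n) {k | k < t},
        a = b * c := by
  have hst' : s.1 < t.1 := hst
  have htn := t.2
  obtain ⟨b, hb, hI⟩ := hrdc n Ψ h a 0 t.1 (by omega) (by omega)
  obtain ⟨q, hq1, hq2, hq3⟩ := word_of_mem _ _ ha
  have hbt : Ψ b (pre (n + 1) (t.1 + 1)) = pre (n + 1) (t.1 + 1) :=
    stab_pre h (by omega) (by rintro k ⟨h1, h2⟩; omega) b hb
  have hprod : ((sg (n + 1) 0 t.1).map (fun j => Ψ (a * b) (ox j))).prod =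
      wp (sg (n + 1) 0 s.1 ++ q) := by
    rw [map_sg_prod, wp_sg (n + 1) 0 t.1 (by omega), pre_zero, inv_one, one_mul, map_mul,
      MulAut.mul_apply, hbt, wp_append, hq2, wp_sg (n + 1) 0 s.1 (by omega), pre_zero, inv_one,
      one_mul, mul_inv_cancel_left]
  have hls : (sg (n + 1) 0 s.1).length = s.1 + 1 - 0 := len_sg _ _ _ (by omega) (by omega)
  have hlt : (sg (n + 1) 0 t.1).length = t.1 + 1 - 0 := len_sg _ _ _ (by omega) (by omega)
  obtain ⟨l', hl'⟩ := hirr (n + 1) ((sg (n + 1) 0 t.1).map (fun j => Ψ (a * b) (ox j)))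
    (sg (n + 1) 0 s.1) q hI (by
      refine List.IsChain.append (rw_of_pw (nodup_sg _ _ _)) hq1 ?_
      intro x hx y hy
      have h1 := (mem_sg x).1 (List.mem_of_mem_getLast? hx)
      have h2 := hq3 y (List.mem_of_mem_head? hy)
      intro hxy
      rw [hxy] at h1
      omega) hprod.symm (nodup_sg _ _ _) (by
      intro x hx hxq
      have h1 := (mem_sg x).1 hx
      have h2 := hq3 x hxq
      omega)
    (Or.inl (by rw [List.length_map]; omega))
  rw [← sg_append (n + 1) 0 s.1 t.1 (by omega) (by omega), List.map_append] at hl'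
  have hfix := List.map_inj_left.1 (List.append_inj_left hl' (by rw [List.length_map, List.length_map]))
  have hfix' : ∀ j : Fin (n + 1), j.1 ≤ s.1 → Ψ (a * b) (ox j) = ox j :=
    fun j hj => hfix j ((mem_sg j).2 ⟨Nat.zero_le _, hj⟩)
  have hall : ∀ (c : Gp (CoxeterMatrix.A n)), Ψ c (pre (n + 1) (n + 1)) = pre (n + 1) (n + 1) := by
    intro c
    apply stab_pre h le_rfl (D := Set.univ)
    · intro k _
      have := k.2
      omega
    · unfold P
      rw [Set.image_univ, closure_gen]
      trivial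
  have hs1 : Ψ (a * b) (pre (n + 1) (s.1 + 1)) = pre (n + 1) (s.1 + 1) := by
    rw [pre_succ_eq, ← map_sg_prod]
    unfold wp
    congr 1
    apply List.map_congr_left
    intro j hj
    exact hfix j hj
  obtain ⟨c, hc, hc'⟩ := close hrdc hirr h (a * b) (s.1 + 1) n (by omega) le_rfl (by
    rw [map_mul (Ψ (a * b)), map_inv (Ψ (a * b)), hs1, hall])
  have h1 : a * b * c = 1 := by
    apply eq_one_of_fix hmor h
    intro j
    by_cases hj : j.1 ≤ s.1
    · rw [map_mul, MulAut.mul_apply, stab_ox h (by rintro k ⟨h1, h2⟩; omega) c hc, hfix' j hj]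
    · exact hc' j (by omega) (by have := j.2; omega)
  refine ⟨c⁻¹, inv_mem (Subgroup.closure_mono ?_ hc), b⁻¹, inv_mem (Subgroup.closure_mono ?_ hb), ?_⟩
  · rintro _ ⟨k, ⟨hk1, hk2⟩, rfl⟩
    exact ⟨k, by show s.1 < k.1; omega, rfl⟩
  · rintro _ ⟨k, ⟨hk1, hk2⟩, rfl⟩
    exact ⟨k, by show k.1 < t.1; omega, rfl⟩
  · rw [← mul_inv_rev, mul_assoc] at *
    exact eq_inv_of_mul_eq_one_left h1

theorem part3 (hmor : MorStmt) (hrdc : RdcStmt) (hirr : IrrStmt) (h : IsArt n Ψ)
    (s t : Fin n) (hst : t < s) (a : Gp (CoxeterMatrix.A n))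
    (ha : Ψ a (pre (n + 1) (t.1 + 1)) ∈
        Subgroup.closure {y | ∃ j : Fin (n + 1), j.1 ≤ s.1 ∧ y = ox j}) :
    ∃ b ∈ P (CoxeterMatrix.A n) {k | k < s}, ∃ c ∈ P (CoxeterMatrix.A n) {k | t < k},
        a = b * c := by
  have hst' : t.1 < s.1 := hst
  have hsn := s.2
  obtain ⟨b, hb, hI⟩ := hrdc n Ψ h a (t.1 + 1) n (by omega) le_rfl
  have hall : ∀ (c : Gp (CoxeterMatrix.A n)), Ψ c (pre (n + 1) (n + 1)) = pre (n + 1) (n + 1) := by
    intro c
    apply stab_pre h le_rfl (D := Set.univ)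
    · intro k _
      have := k.2
      omega
    · unfold P
      rw [Set.image_univ, closure_gen]
      trivial
  have hz : (pre (n + 1) (s.1 + 1))⁻¹ * Ψ a (pre (n + 1) (t.1 + 1)) ∈
      Subgroup.closure {y | ∃ j : Fin (n + 1), j.1 ≤ s.1 ∧ y = ox j} := by
    refine mul_mem (inv_mem ?_) ha
    rw [pre_succ_eq]
    unfold wp
    apply Subgroup.list_prod_mem
    intro x hx
    rw [List.mem_map] at hx
    obtain ⟨j, hj, rfl⟩ := hx
    exact Subgroup.subset_closure ⟨j, ((mem_sg j).1 hj).2, rfl⟩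
  obtain ⟨q, hq1, hq2, hq3⟩ := word_of_mem _ _ hz
  have hbt : Ψ b (pre (n + 1) (t.1 + 1)) = pre (n + 1) (t.1 + 1) :=
    stab_pre h (by omega) (by rintro k ⟨h1, h2⟩; omega) b hb
  have hsq : ∀ A ∈ (sg (n + 1) (t.1 + 1) n).map (fun j => Ψ (a * b) (ox j)), A * A = 1 := by
    intro A hA
    rw [List.mem_map] at hA
    obtain ⟨j, _, rfl⟩ := hA
    rw [← map_mul, ox_sq, map_one]
  have hprod : ((sg (n + 1) (t.1 + 1) n).map (fun j => Ψ (a * b) (ox j))).reverse.prod =
      wp ((sg (n + 1) (s.1 + 1) n).reverse ++ q) := by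
    rw [prod_rev _ hsq, map_sg_prod, wp_sg (n + 1) (t.1 + 1) n (by omega), map_mul Ψ,
      MulAut.mul_apply, map_mul (Ψ b), map_inv (Ψ b), hbt, hall b, wp_append, hq2, wp_reverse,
      wp_sg (n + 1) (s.1 + 1) n (by omega), map_mul, map_inv, hall a]
    group
  have hls : (sg (n + 1) (s.1 + 1) n).length = n + 1 - (s.1 + 1) :=
    len_sg _ _ _ (by omega) (by omega)
  have hlt : (sg (n + 1) (t.1 + 1) n).length = n + 1 - (t.1 + 1) :=
    len_sg _ _ _ (by omega) (by omega)
  obtain ⟨l', hl'⟩ := hirr (n + 1) ((sg (n + 1) (t.1 + 1) n).map (fun j => Ψ (a * b) (ox j))).reverse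
    (sg (n + 1) (s.1 + 1) n).reverse q (irr_rev hI) (by
      refine List.IsChain.append (rw_of_pw (List.nodup_reverse.2 (nodup_sg _ _ _))) hq1 ?_
      intro x hx y hy
      have h1 := (mem_sg x).1 (List.mem_reverse.1 (List.mem_of_mem_getLast? hx))
      have h2 := hq3 y (List.mem_of_mem_head? hy)
      intro hxy
      rw [hxy] at h1
      omega) hprod.symm (List.nodup_reverse.2 (nodup_sg _ _ _)) (by
      intro x hx hxq
      have h1 := (mem_sg x).1 (List.mem_reverse.1 hx)
      have h2 := hq3 x hxq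
      omega)
    (Or.inl (by rw [List.length_reverse, List.length_reverse, List.length_map]; omega))
  rw [← sg_append (n + 1) (t.1 + 1) s.1 n (by omega) (by omega), List.map_append,
    List.reverse_append, ← List.map_reverse] at hl'
  have hfix := List.map_inj_left.1 (List.append_inj_left hl' (by rw [List.length_map, List.length_map]))
  have hfix' : ∀ j : Fin (n + 1), s.1 < j.1 → Ψ (a * b) (ox j) = ox j :=
    fun j hj => hfix j (List.mem_reverse.2 ((mem_sg j).2 ⟨by omega, by have := j.2; omega⟩))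
  have hs1 : Ψ (a * b) (pre (n + 1) (s.1 + 1)) = pre (n + 1) (s.1 + 1) := by
    have e1 : Ψ (a * b) (wp (sg (n + 1) (s.1 + 1) n)) = wp (sg (n + 1) (s.1 + 1) n) := by
      rw [← map_sg_prod]
      unfold wp
      congr 1
      apply List.map_congr_left
      intro j hj
      exact hfix j (List.mem_reverse.2 hj)
    rw [wp_sg (n + 1) (s.1 + 1) n (by omega), map_mul, map_inv, hall] at e1
    exact inv_injective (mul_right_cancel e1)
  obtain ⟨c, hc, hc'⟩ := close hrdc hirr h (a * b) 0 s.1 (by omega) (by omega) (by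
    rw [pre_zero, inv_one, one_mul, hs1])
  have h1 : a * b * c = 1 := by
    apply eq_one_of_fix hmor h
    intro j
    by_cases hj : j.1 ≤ s.1
    · exact hc' j (by omega) hj
    · rw [map_mul, MulAut.mul_apply, stab_ox h (by rintro k ⟨h1, h2⟩; omega) c hc,
        hfix' j (by omega)]
  refine ⟨c⁻¹, inv_mem (Subgroup.closure_mono ?_ hc), b⁻¹, inv_mem (Subgroup.closure_mono ?_ hb), ?_⟩
  · rintro _ ⟨k, ⟨hk1, hk2⟩, rfl⟩
    exact ⟨k, by show k.1 < s.1; omega, rfl⟩
  · rintro _ ⟨k, ⟨hk1, hk2⟩, rfl⟩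
    exact ⟨k, by show t.1 < k.1; omega, rfl⟩
  · rw [← mul_inv_rev, mul_assoc] at *
    exact eq_inv_of_mul_eq_one_left h1

/-- HTA. -/
theorem hta (hmor : MorStmt) (hrdc : RdcStmt) (hirr : IrrStmt) : HtaStmt := by
  intro n Ψ h
  exact ⟨fun I a ha => part1 hmor hrdc hirr h I a ha,
    fun s t hst a ha => part2 hmor hrdc hirr h s t hst a ha,
    fun s t hst a ha => part3 hmor hrdc hirr h s t hst a ha⟩

end Unf.H40
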